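import Mathlib

namespace Pool.Agent.Results.MP_71d783_pr.Bridge

open MeasureTheory ProbabilityTheory
open scoped symmDiff

/-- The law of iid uniform labels. -/
noncomputable def PP (V : Type) : Measure (V → unitInterval) :=
  Measure.infinitePi fun _ : V => (volume : Measure unitInterval)

/-- `M u v = true` means that `uv` is an edge of the matching. -/
structure IsPM {V : Type} (G : SimpleGraph V) (M : V → V → Bool) : Prop where
  adj : ∀ u v, M u v = true → G.Adj u v
  symm : ∀ u v, M u v = M v u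
  uniq : ∀ v, ∃! w, M v w = true

/-- `O u v = true` means that the edge `uv` points from `u` to `v`. -/
structure IsBalanced {V : Type} (G : SimpleGraph V) (d : ℕ) (O : V → V → Bool) : Prop where
  adj : ∀ u v, O u v = true → G.Adj u v
  cover : ∀ u v, G.Adj u v → O u v = true ∨ O v u = true
  dir : ∀ u v, O u v = true → O v u = true → False
  out : ∀ v, {w | O v w = true}.ncard = d
  inn : ∀ v, {w | O w v = true}.ncard = d

/-- `D i u v = true` means that the edge `uv` has colour `i` and points from `u` to `v`. -/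
structure IsSchreier {V : Type} (G : SimpleGraph V) (d : ℕ) (D : Fin d → V → V → Bool) : Prop where
  adj : ∀ i u v, D i u v = true → G.Adj u v
  cover : ∀ u v, G.Adj u v → ∃ i, D i u v = true ∨ D i v u = true
  colour : ∀ i j u v, D i u v = true → D j u v = true → i = j
  dir : ∀ i j u v, D i u v = true → D j v u = true → False
  out : ∀ i v, ∃! w, D i v w = true
  inn : ∀ i v, ∃! w, D i w v = true

instance (V : Type) : IsProbabilityMeasure (PP V) := by
  unfold PP
  infer_instance

lemma pres {V : Type} {e : V → V} (he : Function.Injective e) :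
    MeasurePreserving (fun (ω : V → unitInterval) => ω ∘ e) (PP V) (PP V) :=
  ⟨measurable_pi_lambda _ fun i => measurable_pi_apply (e i),
    Measure.map_infinitePi_infinitePi_of_inj (P := fun _ : V => (volume : Measure unitInterval)) he⟩

lemma ergo {V : Type} (R : Set (V → unitInterval)) (hR : MeasurableSet R)
    (h : ∀ s : Finset V, ∃ e : V → V, Function.Injective e ∧ (∀ v ∈ s, e v ∉ s) ∧
      (fun ω => ω ∘ e) ⁻¹' R =ᵐ[PP V] R) : (PP V).real R ≠ 1 / 2 := by
  classical
  intro hh
  obtain ⟨C, hC, hε⟩ := exists_measure_symmDiff_lt_of_generateFrom_isSetRing (μ := PP V)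
    isSetRing_measurableCylinders
    ⟨{Set.univ}, Set.countable_singleton _,
      Set.singleton_subset_iff.mpr (univ_mem_measurableCylinders _), by simp⟩
    generateFrom_measurableCylinders.symm hR (ε := ENNReal.ofReal (1 / 20)) (by simp)
  obtain ⟨s, S, hS, rfl⟩ := (mem_measurableCylinders _).mp hC
  obtain ⟨e, he, hs, hae⟩ := h s
  have hp := pres he
  have hCm : MeasurableSet (cylinder s S : Set (V → unitInterval)) := hS.cylinder s
  have hi : iIndepFun (fun (i : V) (ω : V → unitInterval) => ω i) (PP V) :=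
    iIndepFun_infinitePi (P := fun _ : V => (volume : Measure unitInterval))
      (X := fun _ x => x) fun _ => measurable_id
  have hd : Disjoint s (s.image e) := by
    rw [Finset.disjoint_right]
    intro v hv
    obtain ⟨u, hu, rfl⟩ := Finset.mem_image.mp hv
    exact hs u hu
  have h1 := (hi.indepFun_finset s (s.image e) hd fun i => measurable_pi_apply i).comp
    (φ := id) (ψ := fun (z : s.image e → unitInterval) (i : s) =>
      z ⟨e i, Finset.mem_image_of_mem e i.2⟩) measurable_id
    (measurable_pi_lambda _ fun i => measurable_pi_apply _)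
  have h2 : PP V (cylinder s S ∩ (fun ω => ω ∘ e) ⁻¹' cylinder s S)
      = PP V (cylinder s S) * PP V ((fun ω => ω ∘ e) ⁻¹' cylinder s S) :=
    h1.measure_inter_preimage_eq_mul S S hS hS
  rw [hp.measure_preimage hCm.nullMeasurableSet] at h2
  set C : Set (V → unitInterval) := cylinder s S
  set C' : Set (V → unitInterval) := (fun ω => ω ∘ e) ⁻¹' C with hC'
  have h3 : PP V (C' ∆ R) = PP V (C ∆ R) := by
    rw [← hp.measure_preimage (hCm.symmDiff hR).nullMeasurableSet, Set.preimage_symmDiff]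
    exact measure_congr ((ae_eq_refl _).symmDiff hae.symm)
  have r1 : (PP V).real (C ∆ R) < 1 / 20 := ENNReal.toReal_lt_of_lt_ofReal hε
  have r2 : (PP V).real (C' ∆ R) < 1 / 20 := by
    unfold Measure.real at r1 ⊢
    rw [h3]
    exact r1
  have r3 : (PP V).real (C ∩ C') = (PP V).real C * (PP V).real C := by
    unfold Measure.real
    rw [h2, ENNReal.toReal_mul]
  have r4 : (PP V).real R ≤ (PP V).real (C ∩ C') + (PP V).real (C ∆ R) + (PP V).real (C' ∆ R) := by
    refine le_trans (measureReal_mono (s₂ := (C ∩ C') ∪ (C ∆ R) ∪ (C' ∆ R)) ?_) ?_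
    · intro ω hω
      by_cases a : ω ∈ C <;> by_cases b : ω ∈ C' <;> simp [Set.mem_symmDiff, a, b, hω]
    · exact (measureReal_union_le _ _).trans (add_le_add_left (measureReal_union_le _ _) _)
  have r5 : (PP V).real C ≤ (PP V).real R + (PP V).real (C ∆ R) := by
    refine le_trans (measureReal_mono (s₂ := R ∪ (C ∆ R)) ?_) (measureReal_union_le _ _)
    intro ω hω
    by_cases a : ω ∈ R <;> simp [Set.mem_symmDiff, a, hω]
  have r6 : 0 ≤ (PP V).real C := measureReal_nonneg
  nlinarith

abbrev V := ℤ × Bool × Fin 4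

def mt (u : V) : V :=
  if u.2.2 = 0 then (if u.2.1 = true then (u.1 + 1, false, 0) else (u.1 - 1, true, 0))
  else (u.1, !u.2.1, u.2.2)

lemma mt_mt (u : V) : mt (mt u) = u := by
  obtain ⟨n, s, i⟩ := u
  by_cases h : i = 0 <;> cases s <;> simp [mt, h]

lemma mt_s (u : V) : (mt u).2.1 = !u.2.1 := by
  obtain ⟨n, s, i⟩ := u
  by_cases h : i = 0 <;> cases s <;> simp [mt, h]

def G : SimpleGraph V where
  Adj u v := (u.1 = v.1 ∧ u.2.1 = v.2.1 ∧ u.2.2 ≠ v.2.2) ∨ v = mt u
  symm := ⟨by
    rintro u v (⟨a, b, c⟩ | rfl)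
    · exact Or.inl ⟨a.symm, b.symm, c.symm⟩
    · exact Or.inr (mt_mt u).symm⟩
  loopless := ⟨by
    rintro u (⟨_, _, c⟩ | h)
    · exact c rfl
    · have := mt_s u
      rw [← h] at this
      simp at this⟩

def nb (u : V) (j : Fin 4) : V := if j = u.2.2 then mt u else (u.1, u.2.1, j)

lemma nb_inj (u : V) : Function.Injective (nb u) := by
  intro a b h
  unfold nb at h
  have := mt_s u
  split_ifs at h with h1 h2 h2
  · rw [h1, h2]
  · rw [h] at this
    simp at this
  · rw [← h] at this
    simp at this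
  · simpa using h

lemma adj_iff (u v : V) : G.Adj u v ↔ ∃ j, nb u j = v := by
  constructor
  · rintro (⟨a, b, c⟩ | rfl)
    · refine ⟨v.2.2, ?_⟩
      unfold nb
      rw [if_neg c.symm, a, b]
    · exact ⟨u.2.2, by simp [nb]⟩
  · rintro ⟨j, rfl⟩
    unfold nb
    split_ifs with h
    · exact Or.inr rfl
    · exact Or.inl ⟨rfl, rfl, fun h' => h h'.symm⟩

lemma mt_iff (u v : V) : v = mt u ↔ G.Adj u v ∧ ¬ ∃ w, G.Adj u w ∧ G.Adj v w := by
  constructor
  · rintro rfl
    refine ⟨Or.inr rfl, ?_⟩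
    rintro ⟨w, h1 | h1, h2 | h2⟩
    · have := mt_s u
      rw [h2.2.1, ← h1.2.1] at this
      simp at this
    · rw [mt_mt] at h2
      exact h1.2.2 (by rw [h2])
    · exact h2.2.2 (by rw [h1])
    · rw [mt_mt] at h2
      have := mt_s u
      rw [← h1, h2] at this
      simp at this
  · rintro ⟨⟨a, b, c⟩ | h, hn⟩
    · exfalso
      have h : ∀ i j : Fin 4, ∃ k, i ≠ k ∧ j ≠ k := by decide
      obtain ⟨k, k1, k2⟩ := h u.2.2 v.2.2
      exact hn ⟨(u.1, u.2.1, k), Or.inl ⟨rfl, rfl, k1⟩, Or.inl ⟨a.symm, b.symm, k2⟩⟩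
    · exact h

def sh (k : ℤ) : G ≃g G where
  toFun u := (u.1 + k, u.2)
  invFun u := (u.1 - k, u.2)
  left_inv u := by simp
  right_inv u := by simp
  map_rel_iff' := by
    rintro ⟨n, s, i⟩ ⟨m, t, j⟩
    show (n + k = m + k ∧ s = t ∧ i ≠ j) ∨ (m + k, t, j) = mt (n + k, s, i) ↔
      (n = m ∧ s = t ∧ i ≠ j) ∨ (m, t, j) = mt (n, s, i)
    by_cases h : i = 0 <;> cases s <;> simp [mt, h] <;> grind

def rf : G ≃g G where
  toFun u := (-u.1, !u.2.1, u.2.2)
  invFun u := (-u.1, !u.2.1, u.2.2)
  left_inv u := by simp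
  right_inv u := by simp
  map_rel_iff' := by
    rintro ⟨n, s, i⟩ ⟨m, t, j⟩
    show (-n = -m ∧ (!s) = (!t) ∧ i ≠ j) ∨ (-m, !t, j) = mt (-n, !s, i) ↔
      (n = m ∧ s = t ∧ i ≠ j) ∨ (m, t, j) = mt (n, s, i)
    by_cases h : i = 0 <;> cases s <;> cases t <;> simp [mt, h] <;> grind

lemma flow {O : V → V → Bool} (h : IsBalanced G 2 O) (n : ℤ) :
    O (n, true, 0) (n + 1, false, 0) = O (n - 1, true, 0) (n, false, 0) := by
  let x : V → V → ℕ := fun u v => if O u v = true then 1 else 0
  have hx : ∀ u v, G.Adj u v → x u v + x v u = 1 := by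
    intro u v huv
    have h1 := h.cover u v huv
    have h2 := h.dir u v
    simp only [x]
    cases h3 : O u v <;> cases h4 : O v u <;> simp_all
  have ho : ∀ u, x u (nb u 0) + x u (nb u 1) + x u (nb u 2) + x u (nb u 3) = 2 := by
    intro u
    have e : {w | O u w = true} = nb u '' {j | O u (nb u j) = true} := by
      ext w
      constructor
      · intro hw
        obtain ⟨j, rfl⟩ := (adj_iff u w).mp (h.adj u w hw)
        exact ⟨j, hw, rfl⟩
      · rintro ⟨j, hj, rfl⟩
        exact hj
    have h1 := h.out u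
    rw [e, Set.ncard_image_of_injective _ (nb_inj u), Set.ncard_eq_toFinset_card',
      Set.toFinset_ofPred, Finset.card_filter, Fin.sum_univ_four] at h1
    exact h1
  have hb : ∀ s i j, i ≠ j → x (n, s, i) (n, s, j) + x (n, s, j) (n, s, i) = 1 :=
    fun s i j hij => hx _ _ (Or.inl ⟨rfl, rfl, hij⟩)
  have hr : ∀ i, i ≠ 0 → x (n, true, i) (n, false, i) + x (n, false, i) (n, true, i) = 1 :=
    fun i hi => hx _ _ (Or.inr (by simp [mt, hi]))
  have hl : x (n, false, 0) (n - 1, true, 0) + x (n - 1, true, 0) (n, false, 0) = 1 :=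
    hx _ _ (Or.inr (by simp [mt]))
  have a0 : x (n, true, 0) (n + 1, false, 0) + x (n, true, 0) (n, true, 1)
    + x (n, true, 0) (n, true, 2) + x (n, true, 0) (n, true, 3) = 2 := ho (n, true, 0)
  have a1 : x (n, true, 1) (n, true, 0) + x (n, true, 1) (n, false, 1)
    + x (n, true, 1) (n, true, 2) + x (n, true, 1) (n, true, 3) = 2 := ho (n, true, 1)
  have a2 : x (n, true, 2) (n, true, 0) + x (n, true, 2) (n, true, 1)
    + x (n, true, 2) (n, false, 2) + x (n, true, 2) (n, true, 3) = 2 := ho (n, true, 2)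
  have a3 : x (n, true, 3) (n, true, 0) + x (n, true, 3) (n, true, 1)
    + x (n, true, 3) (n, true, 2) + x (n, true, 3) (n, false, 3) = 2 := ho (n, true, 3)
  have b0 : x (n, false, 0) (n - 1, true, 0) + x (n, false, 0) (n, false, 1)
    + x (n, false, 0) (n, false, 2) + x (n, false, 0) (n, false, 3) = 2 := ho (n, false, 0)
  have b1 : x (n, false, 1) (n, false, 0) + x (n, false, 1) (n, true, 1)
    + x (n, false, 1) (n, false, 2) + x (n, false, 1) (n, false, 3) = 2 := ho (n, false, 1)
  have b2 : x (n, false, 2) (n, false, 0) + x (n, false, 2) (n, false, 1)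
    + x (n, false, 2) (n, true, 2) + x (n, false, 2) (n, false, 3) = 2 := ho (n, false, 2)
  have b3 : x (n, false, 3) (n, false, 0) + x (n, false, 3) (n, false, 1)
    + x (n, false, 3) (n, false, 2) + x (n, false, 3) (n, true, 3) = 2 := ho (n, false, 3)
  have c1 := hb true 0 1 (by decide)
  have c2 := hb true 0 2 (by decide)
  have c3 := hb true 0 3 (by decide)
  have c4 := hb true 1 2 (by decide)
  have c5 := hb true 1 3 (by decide)
  have c6 := hb true 2 3 (by decide)
  have d1 := hb false 0 1 (by decide)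
  have d2 := hb false 0 2 (by decide)
  have d3 := hb false 0 3 (by decide)
  have d4 := hb false 1 2 (by decide)
  have d5 := hb false 1 3 (by decide)
  have d6 := hb false 2 3 (by decide)
  have e1 := hr 1 (by decide)
  have e2 := hr 2 (by decide)
  have e3 := hr 3 (by decide)
  have key : x (n, true, 0) (n + 1, false, 0) = x (n - 1, true, 0) (n, false, 0) := by omega
  simp only [x] at key
  cases h3 : O (n, true, 0) (n + 1, false, 0) <;> cases h4 : O (n - 1, true, 0) (n, false, 0) <;>
    simp_all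

lemma flowN {O : V → V → Bool} (h : IsBalanced G 2 O) (K : ℕ) :
    O (K, true, 0) (K + 1, false, 0) = O (0, true, 0) (1, false, 0) := by
  induction K with
  | zero => simp
  | succ K ih =>
    rw [flow h, ← ih]
    simp

lemma no_bal (O : (V → unitInterval) → V → V → Bool) (hm : Measurable O)
    (he : ∀ φ : G ≃g G, ∀ᵐ ω ∂PP V, ∀ u v, O (ω ∘ φ.symm) (φ u) (φ v) = O ω u v)
    (hb : ∀ᵐ ω ∂PP V, IsBalanced G 2 (O ω)) : False := by
  let R : Set (V → unitInterval) := {ω | O ω (0, true, 0) (1, false, 0) = true}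
  have hR : MeasurableSet R :=
    ((measurable_pi_apply _).comp ((measurable_pi_apply _).comp hm)) (measurableSet_singleton true)
  refine ergo R hR (fun s => ?_) ?_
  · obtain ⟨K, hK⟩ := (s.image fun v => v.1.natAbs).bddAbove
    have hK' : ∀ v ∈ s, v.1.natAbs ≤ K := fun v hv =>
      hK (Finset.mem_coe.mpr (Finset.mem_image_of_mem _ hv))
    refine ⟨(sh (-((2 * K + 1 : ℕ) : ℤ))).symm, (sh _).symm.injective, fun v hv hv' => ?_, ?_⟩
    · have h1 := hK' v hv
      have h2 : (v.1 - -((2 * K + 1 : ℕ) : ℤ)).natAbs ≤ K := hK' _ hv'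
      omega
    · filter_upwards [he (sh (-((2 * K + 1 : ℕ) : ℤ))), hb] with ω h1 h2
      have h3 := h1 ((2 * K + 1 : ℕ), true, 0) ((2 * K + 1 : ℕ) + 1, false, 0)
      rw [flowN h2] at h3
      have e1 : sh (-((2 * K + 1 : ℕ) : ℤ)) ((2 * K + 1 : ℕ), true, 0) = (0, true, 0) :=
        Prod.ext (by show ((2 * K + 1 : ℕ) : ℤ) + -((2 * K + 1 : ℕ) : ℤ) = 0; ring) rfl
      have e2 : sh (-((2 * K + 1 : ℕ) : ℤ)) ((2 * K + 1 : ℕ) + 1, false, 0) = (1, false, 0) :=
        Prod.ext (by show ((2 * K + 1 : ℕ) : ℤ) + 1 + -((2 * K + 1 : ℕ) : ℤ) = 1; ring) rfl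
      rw [e1, e2] at h3
      exact congrArg (fun b => b = true) h3
  · have h1 : (fun ω => ω ∘ rf.symm) ⁻¹' R =ᵐ[PP V] Rᶜ := by
      filter_upwards [he rf, hb] with ω h1 h2
      have h3 := h1 (0, false, 0) (-1, true, 0)
      have e1 : rf (0, false, 0) = (0, true, 0) := Prod.ext (by show -(0:ℤ) = 0; rfl) rfl
      have e2 : rf (-1, true, 0) = (1, false, 0) := Prod.ext (by show -(-1:ℤ) = 1; rfl) rfl
      rw [e1, e2] at h3
      have h4 : O ω (0, true, 0) (1, false, 0) = O ω (-1, true, 0) (0, false, 0) := flow h2 0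
      have h5 := h2.cover (0, false, 0) (-1, true, 0) (Or.inr (by decide))
      have h6 := h2.dir (0, false, 0) (-1, true, 0)
      apply propext
      show O (ω ∘ rf.symm) (0, true, 0) (1, false, 0) = true ↔
        ¬ O ω (0, true, 0) (1, false, 0) = true
      rw [h3, h4]
      exact ⟨fun a b => h6 a b, fun a => h5.resolve_right a⟩
    have h2 := (pres rf.symm.injective).measure_preimage hR.nullMeasurableSet
    rw [measure_congr h1] at h2
    have h3 := measureReal_add_measureReal_compl (μ := PP V) hR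
    have h4 : (PP V).real Rᶜ = (PP V).real R := by
      exact congrArg ENNReal.toReal h2
    rw [h4, probReal_univ] at h3
    linarith

lemma bal_of {V : Type} {G : SimpleGraph V} {d : ℕ} {D : Fin d → V → V → Bool}
    (h : IsSchreier G d D) : IsBalanced G d fun u v => decide (∃ i, D i u v = true) := by
  refine ⟨?_, ?_, ?_, ?_, ?_⟩
  · intro u v h1
    obtain ⟨i, hi⟩ := of_decide_eq_true h1
    exact h.adj i u v hi
  · intro u v h1
    obtain ⟨i, hi | hi⟩ := h.cover u v h1
    · exact Or.inl (decide_eq_true ⟨i, hi⟩)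
    · exact Or.inr (decide_eq_true ⟨i, hi⟩)
  · intro u v h1 h2
    obtain ⟨i, hi⟩ := of_decide_eq_true h1
    obtain ⟨j, hj⟩ := of_decide_eq_true h2
    exact h.dir i j u v hi hj
  · intro v
    choose f hf hf' using fun i => h.out i v
    have e : {w | decide (∃ i, D i v w = true) = true} = f '' Set.univ := by
      ext w
      simp only [decide_eq_true_eq, Set.mem_ofPred_eq, Set.image_univ, Set.mem_range]
      exact ⟨fun ⟨i, hi⟩ => ⟨i, (hf' i w hi).symm⟩, fun ⟨i, hi⟩ => ⟨i, hi ▸ hf i⟩⟩
    have hinj : Function.Injective f := fun i j hij => h.colour i j v _ (hf i) (hij ▸ hf j)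
    rw [e, Set.ncard_image_of_injective _ hinj, Set.ncard_univ]
    simp
  · intro v
    choose f hf hf' using fun i => h.inn i v
    have e : {w | decide (∃ i, D i w v = true) = true} = f '' Set.univ := by
      ext w
      simp only [decide_eq_true_eq, Set.mem_ofPred_eq, Set.image_univ, Set.mem_range]
      exact ⟨fun ⟨i, hi⟩ => ⟨i, (hf' i w hi).symm⟩, fun ⟨i, hi⟩ => ⟨i, hi ▸ hf i⟩⟩
    have hinj : Function.Injective f := fun i j hij => h.colour i j _ v (hf i) (hij ▸ hf j)
    rw [e, Set.ncard_image_of_injective _ hinj, Set.ncard_univ]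
    simp

lemma conn : G.Connected := by
  have blk : ∀ n s i, G.Reachable (n, s, i) (n, s, 0) := by
    intro n s i
    by_cases h : i = 0
    · rw [h]
    · exact SimpleGraph.Adj.reachable (Or.inl ⟨rfl, rfl, h⟩)
  have rung : ∀ n, G.Reachable (n, false, 0) (n, true, 0) := fun n =>
    (blk n false 1).symm.trans
      ((SimpleGraph.Adj.reachable (Or.inr (by simp [mt]) : G.Adj (n, false, 1) (n, true, 1))).trans
        (blk n true 1))
  have up : ∀ n : ℤ, G.Reachable (n, true, 0) (n + 1, true, 0) := fun n =>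
    (SimpleGraph.Adj.reachable
      (Or.inr (by simp [mt]) : G.Adj (n, true, 0) (n + 1, false, 0))).trans (rung _)
  have col : ∀ k : ℤ, G.Reachable (0, true, 0) (k, true, 0) := by
    intro k
    induction k using Int.induction_on with
    | zero => rfl
    | succ n ih => exact ih.trans (up n)
    | pred n ih =>
      have := up (-n - 1)
      rw [show (-(n:ℤ) - 1 + 1) = -n by ring] at this
      exact ih.trans this.symm
  have all : ∀ v : V, G.Reachable (0, true, 0) v := by
    rintro ⟨n, s, i⟩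
    cases s
    · exact (col n).trans ((rung n).symm.trans (blk n false i).symm)
    · exact (col n).trans (blk n true i).symm
  exact ⟨fun u v => (all u).symm.trans (all v)⟩

theorem result : ∃ (V : Type) (_ : Countable V) (G : SimpleGraph V) (d : ℕ), 1 ≤ d ∧
    G.Connected ∧ (∀ v, (G.neighborSet v).ncard = 2 * d) ∧
    (∃ T : Finset V, ∀ v, ∃ u ∈ T, ∃ φ : G ≃g G, φ u = v) ∧
    (∃ M : (V → unitInterval) → V → V → Bool, Measurable M ∧
      (∀ (φ : G ≃g G) ω u v, M (ω ∘ φ.symm) (φ u) (φ v) = M ω u v) ∧ ∀ ω, IsPM G (M ω)) ∧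
    (¬ ∃ D : (V → unitInterval) → Fin d → V → V → Bool, Measurable D ∧
      (∀ φ : G ≃g G, ∀ᵐ ω ∂PP V, ∀ i u v, D (ω ∘ φ.symm) i (φ u) (φ v) = D ω i u v) ∧
      ∀ᵐ ω ∂PP V, IsSchreier G d (D ω)) ∧
    ¬ ∃ O : (V → unitInterval) → V → V → Bool, Measurable O ∧
      (∀ φ : G ≃g G, ∀ᵐ ω ∂PP V, ∀ u v, O (ω ∘ φ.symm) (φ u) (φ v) = O ω u v) ∧
      ∀ᵐ ω ∂PP V, IsBalanced G d (O ω) := by
  refine ⟨V, inferInstance, G, 2, by norm_num, conn, ?_, ?_,
    ⟨fun _ u v => decide (v = mt u), measurable_const, ?_, fun _ => ⟨?_, ?_, ?_⟩⟩, ?_, ?_⟩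
  · intro v
    have : G.neighborSet v = nb v '' Set.univ := by
      ext w
      simp only [SimpleGraph.mem_neighborSet, Set.image_univ, Set.mem_range, adj_iff]
    rw [this, Set.ncard_image_of_injective _ (nb_inj v), Set.ncard_univ]
    simp
  · refine ⟨Finset.univ.image fun z : Bool × Fin 4 => ((0 : ℤ), z), fun v => ⟨(0, v.2),
      Finset.mem_image_of_mem _ (Finset.mem_univ _), sh v.1, ?_⟩⟩
    exact Prod.ext (zero_add _) rfl
  · intro φ _ u v
    refine decide_eq_decide.mpr ?_
    rw [mt_iff, mt_iff, φ.map_adj_iff]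
    refine and_congr_right fun _ => not_congr ⟨?_, ?_⟩
    · rintro ⟨w, h1, h2⟩
      rw [← φ.apply_symm_apply w, φ.map_adj_iff] at h1 h2
      exact ⟨_, h1, h2⟩
    · rintro ⟨w, h1, h2⟩
      exact ⟨φ w, φ.map_adj_iff.mpr h1, φ.map_adj_iff.mpr h2⟩
  · intro u v h
    exact Or.inr (of_decide_eq_true h)
  · intro u v
    refine decide_eq_decide.mpr ⟨?_, ?_⟩ <;> rintro rfl <;> rw [mt_mt]
  · intro v
    exact ⟨mt v, decide_eq_true rfl, fun w hw => of_decide_eq_true hw⟩
  · rintro ⟨D, hm, he, hb⟩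
    refine no_bal (fun ω u v => decide (∃ i, D ω i u v = true)) ?_ (fun φ => ?_)
      (hb.mono fun ω h => bal_of h)
    · refine measurable_pi_lambda _ fun u => measurable_pi_lambda _ fun v => ?_
      have h1 : Measurable fun ω (i : Fin 2) => D ω i u v := measurable_pi_lambda _ fun i =>
        (measurable_pi_apply v).comp ((measurable_pi_apply u).comp
          ((measurable_pi_apply i).comp hm))
      exact (Measurable.of_discrete (f := fun z : Fin 2 → Bool => decide (∃ i, z i = true))).comp h1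
    · filter_upwards [he φ] with ω h u v
      simp only [h]
  · rintro ⟨O, hm, he, hb⟩
    exact no_bal O hm he hb

end Pool.Agent.Results.MP_71d783_pr.Bridge
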